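import Mathlib
import Pool.Agent.P.MP_ba1a3e_pr.Main

namespace Pool.Agent.Results.MP_ba1a3e_pr.KL

open MeasureTheory Pool.Agent.P.MP_ba1a3e_pr

/-- Dimension-free comparison: `KL(f_μ ‖ f_ν) ≤ 100 (1 + M²) H²(f_μ, f_ν)`. -/
theorem result (M : ℝ) (hM : 0 < M) (d : ℕ) (μ ν : Measure (EuclideanSpace ℝ (Fin d)))
    [IsProbabilityMeasure μ] [IsProbabilityMeasure ν]
    (hμ : μ.support ⊆ Metric.closedBall 0 M) (hν : ν.support ⊆ Metric.closedBall 0 M) :
    Integrable (fun x => mixDensity μ x * Real.log (mixDensity μ x / mixDensity ν x)) ∧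
    Integrable (fun x => (√(mixDensity μ x) - √(mixDensity ν x)) ^ 2) ∧
    ∫ x, mixDensity μ x * Real.log (mixDensity μ x / mixDensity ν x) ≤
      100 * (1 + M ^ 2) * ∫ x, (√(mixDensity μ x) - √(mixDensity ν x)) ^ 2 := by
  rw [mixDensity_eq, mixDensity_eq]
  obtain ⟨h1, h2⟩ := kl_bound hM.le (ae_of_support hμ) (ae_of_support hν)
  exact ⟨h1, integrable_hellinger (ae_of_support hμ) (ae_of_support hν), h2⟩

end Pool.Agent.Results.MP_ba1a3e_pr.KL
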